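import Pool.Agent.Zk96.HSel.Final

/-!
# Homogeneous selection for colour classes of arbitrary sizes

For every dimension `d ≥ 1` there is a constant `c > 0` such that any `d + 1` nonempty finite sets of
points of `ℝ^d`, of arbitrary and possibly different sizes, admit a homogeneous selection with the
constant `c`.  The proof is complete: no selection or Tverberg type theorem is assumed.
-/

set_option autoImplicit false

namespace Pool.Agent.Results.MP_c3eb34_co.ArbitraryClassSizes

/-- The classes `C 0, …, C d` in `ℝ^d` admit a homogeneous selection with the constant `c`: there are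
a point `p` and subsets `D i ⊆ C i` with `c |C i| ≤ |D i|` for every `i`, such that `p` lies in the
convex hull of every transversal `{x 0, …, x d}` of the `D i`. -/
def HomogeneousSelection (d : ℕ) (c : ℝ)
    (C : Fin (d + 1) → Finset (EuclideanSpace ℝ (Fin d))) : Prop :=
  ∃ (p : EuclideanSpace ℝ (Fin d)) (D : Fin (d + 1) → Finset (EuclideanSpace ℝ (Fin d))),
    (∀ i, D i ⊆ C i ∧ c * ((C i).card : ℝ) ≤ ((D i).card : ℝ)) ∧
    ∀ x : Fin (d + 1) → EuclideanSpace ℝ (Fin d), (∀ i, x i ∈ D i) →
      p ∈ convexHull ℝ (Set.range x)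

/-- Q1: for every `d ≥ 1` there is `c > 0`, depending only on `d`, such that every `d + 1` nonempty
finite sets in `ℝ^d`, of arbitrary sizes, admit a homogeneous selection with the constant `c`. -/
theorem result : ∀ d : ℕ, 1 ≤ d → ∃ c : ℝ, 0 < c ∧
    ∀ C : Fin (d + 1) → Finset (EuclideanSpace ℝ (Fin d)), (∀ i, (C i).Nonempty) →
      HomogeneousSelection d c C := by
  intro d hd
  obtain ⟨m, rfl⟩ : ∃ m, d = m + 1 := ⟨d - 1, by omega⟩
  exact Pool.Agent.Zk96.HSel.homogeneous_selection m

end Pool.Agent.Results.MP_c3eb34_co.ArbitraryClassSizes
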